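import Mathlib

/-!
# Functions of determinants: the count of the multisets of cells (row F4)

A multiset of `D` cells of `k` matrices of order `m` is a function `e : I × α × α → ℕ` with sum `D`.
Every cell `x` of the support forbids at most two variables: `r x` in its row (unless the row is
special) and `c x` in its column (unless the column is special).
-/

set_option autoImplicit false

open Finset

namespace Pool.FD

variable {I α : Type*} [Fintype I] [Fintype α] [DecidableEq I] [DecidableEq α]

/-- double counting of multisets with a marked element -/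
theorem marked {X : Type*} [Fintype X] [DecidableEq X] (w : (X → ℕ) → ℝ) (D : ℕ) :
    ((D : ℝ) + 1) * ∑ e ∈ piAntidiag univ (D + 1), w e
      = ∑ e ∈ piAntidiag univ D, ∑ x : X, ((e x : ℝ) + 1) * w (e + Pi.single x 1) := by
  have h1 : ((D : ℝ) + 1) * ∑ e ∈ piAntidiag univ (D + 1), w e
      = ∑ x : X, ∑ e ∈ piAntidiag (univ : Finset X) (D + 1), (e x : ℝ) * w e := by
    rw [Finset.sum_comm, Finset.mul_sum]
    refine Finset.sum_congr rfl fun e he => ?_
    rw [← Finset.sum_mul]
    congr 1
    have h2 := (mem_piAntidiag.1 he).1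
    rw [← Nat.cast_sum]
    have h3 : ∑ x : X, e x = D + 1 := h2
    rw [h3]
    push_cast
    ring
  rw [h1, Finset.sum_comm (s := piAntidiag univ D)]
  refine Finset.sum_congr rfl fun x _ => ?_
  symm
  rw [← Finset.sum_filter_add_sum_filter_not (piAntidiag (univ : Finset X) (D + 1))
    (fun e => e x ≠ 0)]
  have h4 : ∑ e ∈ piAntidiag (univ : Finset X) (D + 1) with ¬ e x ≠ 0, (e x : ℝ) * w e = 0 := by
    refine Finset.sum_eq_zero fun e he => ?_
    have h5 := (mem_filter.1 he).2
    rw [not_not] at h5
    rw [h5]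
    simp
  rw [h4, add_zero]
  refine Finset.sum_bij' (fun e _ => e + Pi.single x 1) (fun e _ => e - Pi.single x 1)
    ?_ ?_ ?_ ?_ ?_
  · intro e he
    rw [mem_filter, mem_piAntidiag]
    have h5 : ∑ y : X, e y = D := (mem_piAntidiag.1 he).1
    refine ⟨⟨?_, fun _ _ => mem_univ _⟩, ?_⟩
    · simp only [Pi.add_apply, Finset.sum_add_distrib, h5, Finset.sum_pi_single', mem_univ, if_true]
    · simp
  · intro e he
    rw [mem_filter, mem_piAntidiag] at he
    rw [mem_piAntidiag]
    obtain ⟨⟨h5, _⟩, h6⟩ := he
    refine ⟨?_, fun _ _ => mem_univ _⟩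
    have h7 : e = (e - Pi.single x 1) + Pi.single x 1 := by
      funext y
      by_cases hy : y = x
      · subst hy
        simp only [Pi.add_apply, Pi.sub_apply, Pi.single_eq_same]
        have := Nat.one_le_iff_ne_zero.2 h6
        omega
      · simp [Pi.single_eq_of_ne hy]
    have h8 : ∑ y : X, e y = ∑ y : X, (e - Pi.single x 1 : X → ℕ) y + 1 := by
      conv_lhs => rw [h7]
      simp only [Pi.add_apply, Finset.sum_add_distrib, Finset.sum_pi_single', mem_univ, if_true]
    have h9 : ∑ y : X, e y = D + 1 := h5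
    change ∑ y : X, (e - Pi.single x 1 : X → ℕ) y = D
    omega
  · intro e _
    funext y
    simp
  · intro e he
    rw [mem_filter] at he
    funext y
    by_cases hy : y = x
    · subst hy
      simp only [Pi.add_apply, Pi.sub_apply, Pi.single_eq_same]
      have := Nat.one_le_iff_ne_zero.2 he.2
      omega
    · simp [Pi.single_eq_of_ne hy]
  · intro e _
    simp

/-- the variables forbidden by one cell -/
def Fx (okR okC : α → Prop) [DecidablePred okR] [DecidablePred okC]
    (r c : I × α × α → I × α × α) (x : I × α × α) : Finset (I × α × α) :=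
  (if okR x.2.1 then {r x} else ∅) ∪ (if okC x.2.2 then {c x} else ∅)

/-- the variables forbidden by a multiset of cells -/
def Forb (okR okC : α → Prop) [DecidablePred okR] [DecidablePred okC]
    (r c : I × α × α → I × α × α) (e : I × α × α → ℕ) : Finset (I × α × α) :=
  (univ.filter fun x => e x ≠ 0).biUnion (Fx okR okC r c)

variable {okR okC : α → Prop} [DecidablePred okR] [DecidablePred okC]
  {r c : I × α × α → I × α × α}

omit [Fintype I] [Fintype α] in
lemma card_Fx_le (x : I × α × α) : (Fx okR okC r c x).card ≤ 2 := by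
  unfold Fx
  refine (card_union_le _ _).trans ?_
  have h1 : (if okR x.2.1 then ({r x} : Finset (I × α × α)) else ∅).card ≤ 1 := by
    split_ifs <;> simp
  have h2 : (if okC x.2.2 then ({c x} : Finset (I × α × α)) else ∅).card ≤ 1 := by
    split_ifs <;> simp
  omega

lemma card_Forb_le {e : I × α × α → ℕ} {D : ℕ} (he : e ∈ piAntidiag univ D) :
    (Forb okR okC r c e).card ≤ 2 * D := by
  unfold Forb
  refine card_biUnion_le.trans ?_
  have h1 : ∑ x ∈ univ.filter (fun x => e x ≠ 0), (Fx okR okC r c x).card
      ≤ ∑ x ∈ univ.filter (fun x => e x ≠ 0), 2 * e x := by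
    refine Finset.sum_le_sum fun x hx => ?_
    have h2 := (mem_filter.1 hx).2
    have h3 := card_Fx_le (okR := okR) (okC := okC) (r := r) (c := c) x
    have h4 := Nat.one_le_iff_ne_zero.2 h2
    omega
  refine h1.trans ?_
  rw [← Finset.mul_sum]
  refine Nat.mul_le_mul_left 2 ?_
  have h5 : ∑ x : I × α × α, e x = D := (mem_piAntidiag.1 he).1
  rw [← h5]
  exact Finset.sum_le_sum_of_subset (filter_subset _ _)

lemma Forb_add (e : I × α × α → ℕ) (x : I × α × α) :
    Forb okR okC r c (e + Pi.single x 1) = Forb okR okC r c e ∪ Fx okR okC r c x := by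
  unfold Forb
  have h1 : (univ.filter fun y => (e + Pi.single x 1 : I × α × α → ℕ) y ≠ 0)
      = (univ.filter fun y => e y ≠ 0) ∪ {x} := by
    ext y
    simp only [mem_filter, mem_univ, true_and, mem_union, mem_singleton, Pi.add_apply]
    by_cases hy : y = x
    · subst hy
      simp
    · simp [hy]
  rw [h1]
  ext z
  simp only [mem_biUnion, mem_union, mem_singleton]
  constructor
  · rintro ⟨y, h2 | rfl, h3⟩
    · exact Or.inl ⟨y, h2, h3⟩
    · exact Or.inr h3
  · rintro (⟨y, h2, h3⟩ | h3)
    · exact ⟨y, Or.inl h2, h3⟩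
    · exact ⟨x, Or.inr rfl, h3⟩

/-- the row `(i, a)` meets the forbidden set -/
def rowHit (F : Finset (I × α × α)) (i : I) (a : α) : Prop := ∃ z ∈ F, z.1 = i ∧ z.2.1 = a

/-- the column `(i, b)` meets the forbidden set -/
def colHit (F : Finset (I × α × α)) (i : I) (b : α) : Prop := ∃ z ∈ F, z.1 = i ∧ z.2.2 = b

instance (F : Finset (I × α × α)) (i : I) (a : α) : Decidable (rowHit F i a) := by
  unfold rowHit; infer_instance

instance (F : Finset (I × α × α)) (i : I) (b : α) : Decidable (colHit F i b) := by
  unfold colHit; infer_instance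

/-- weight of a row -/
def wR (okR : α → Prop) [DecidablePred okR] (th : ℝ) (F : Finset (I × α × α)) (i : I) (a : α) : ℝ :=
  if okR a ∧ ¬ rowHit F i a then th else 1

/-- weight of a column -/
def wC (okC : α → Prop) [DecidablePred okC] (th : ℝ) (F : Finset (I × α × α)) (i : I) (b : α) : ℝ :=
  if okC b ∧ ¬ colHit F i b then th else 1

omit [Fintype I] [Fintype α] in
/-- a new cell adds as many forbidden variables as it has fresh lines -/
lemma card_add (hr : ∀ x, (r x).1 = x.1 ∧ (r x).2.1 = x.2.1)
    (hc : ∀ x, (c x).1 = x.1 ∧ (c x).2.2 = x.2.2)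
    (hrc : ∀ x, okR x.2.1 → okC x.2.2 → r x ≠ c x) {th : ℝ} (h0 : 0 ≤ th) (h1 : th ≤ 1)
    (F : Finset (I × α × α)) (x : I × α × α) :
    th ^ (F ∪ Fx okR okC r c x).card ≤ th ^ F.card * (wR okR th F x.1 x.2.1 * wC okC th F x.1 x.2.2) := by
  have key : ∀ n : ℕ, F.card + n ≤ (F ∪ Fx okR okC r c x).card →
      th ^ (F ∪ Fx okR okC r c x).card ≤ th ^ F.card * th ^ n := by
    intro n hn
    rw [← pow_add]
    exact pow_le_pow_of_le_one h0 h1 hn
  have hR : okR x.2.1 ∧ ¬ rowHit F x.1 x.2.1 → r x ∉ F ∧ r x ∈ Fx okR okC r c x := by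
    intro h
    refine ⟨fun h2 => h.2 ⟨r x, h2, (hr x).1, (hr x).2⟩, ?_⟩
    unfold Fx
    rw [if_pos h.1]
    simp
  have hC : okC x.2.2 ∧ ¬ colHit F x.1 x.2.2 → c x ∉ F ∧ c x ∈ Fx okR okC r c x := by
    intro h
    refine ⟨fun h2 => h.2 ⟨c x, h2, (hc x).1, (hc x).2⟩, ?_⟩
    unfold Fx
    rw [if_pos h.1]
    simp
  unfold wR wC
  by_cases a1 : okR x.2.1 ∧ ¬ rowHit F x.1 x.2.1
  · by_cases a2 : okC x.2.2 ∧ ¬ colHit F x.1 x.2.2
    · rw [if_pos a1, if_pos a2]
      have h2 := key 2 ?_
      · rw [pow_two] at h2; exact h2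
      · have h3 := hR a1
        have h4 := hC a2
        have h5 : insert (r x) (insert (c x) F) ⊆ F ∪ Fx okR okC r c x := by
          intro z hz
          rw [mem_insert, mem_insert] at hz
          rw [mem_union]
          rcases hz with rfl | rfl | hz
          · exact Or.inr h3.2
          · exact Or.inr h4.2
          · exact Or.inl hz
        have h6 := card_le_card h5
        rw [card_insert_of_notMem, card_insert_of_notMem h4.1] at h6
        · omega
        · rw [mem_insert]
          rintro (h7 | h7)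
          · exact hrc x a1.1 a2.1 h7
          · exact h3.1 h7
    · rw [if_pos a1, if_neg a2]
      have h2 := key 1 ?_
      · rw [mul_one]; rw [pow_one] at h2; exact h2
      · have h3 := hR a1
        have h5 : insert (r x) F ⊆ F ∪ Fx okR okC r c x := by
          intro z hz
          rw [mem_insert] at hz
          rw [mem_union]
          rcases hz with rfl | hz
          · exact Or.inr h3.2
          · exact Or.inl hz
        have h6 := card_le_card h5
        rw [card_insert_of_notMem h3.1] at h6
        omega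
  · by_cases a2 : okC x.2.2 ∧ ¬ colHit F x.1 x.2.2
    · rw [if_neg a1, if_pos a2]
      have h2 := key 1 ?_
      · rw [one_mul]; rw [pow_one] at h2; exact h2
      · have h4 := hC a2
        have h5 : insert (c x) F ⊆ F ∪ Fx okR okC r c x := by
          intro z hz
          rw [mem_insert] at hz
          rw [mem_union]
          rcases hz with rfl | hz
          · exact Or.inr h4.2
          · exact Or.inl hz
        have h6 := card_le_card h5
        rw [card_insert_of_notMem h4.1] at h6
        omega
    · rw [if_neg a1, if_neg a2]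
      have h2 := key 0 (by rw [add_zero]; exact card_le_card subset_union_left)
      rw [pow_zero] at h2
      rw [mul_one]
      exact h2

omit [Fintype I] in
lemma sum_wR_le (hR : (univ.filter fun a : α => ¬ okR a).card ≤ 1) {th : ℝ} (h0 : 0 ≤ th)
    (F : Finset (I × α × α)) (i : I) :
    ∑ a : α, wR okR th F i a ≤ Fintype.card α * th + F.card + 1 := by
  have h1 : ∀ a : α, wR okR th F i a ≤ th + (if ¬ okR a then 1 else 0)
      + (if rowHit F i a then 1 else 0) := by
    intro a
    unfold wR
    by_cases a1 : okR a <;> by_cases a2 : rowHit F i a <;> simp [a1, a2, h0]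
    linarith
  refine (Finset.sum_le_sum fun a _ => h1 a).trans ?_
  rw [Finset.sum_add_distrib, Finset.sum_add_distrib, Finset.sum_const, Finset.card_univ,
    nsmul_eq_mul, Finset.sum_boole, Finset.sum_boole]
  have h2 : ((univ.filter fun a : α => ¬ okR a).card : ℝ) ≤ 1 := by exact_mod_cast hR
  have h3 : ((univ.filter fun a : α => rowHit F i a).card : ℝ) ≤ F.card := by
    have h4 : (univ.filter fun a : α => rowHit F i a) ⊆ F.image fun z => z.2.1 := by
      intro a ha
      obtain ⟨z, hz, _, h5⟩ := (mem_filter.1 ha).2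
      exact mem_image.2 ⟨z, hz, h5⟩
    exact_mod_cast (card_le_card h4).trans card_image_le
  linarith

omit [Fintype I] in
lemma sum_wC_le (hC : (univ.filter fun a : α => ¬ okC a).card ≤ 1) {th : ℝ} (h0 : 0 ≤ th)
    (F : Finset (I × α × α)) (i : I) :
    ∑ a : α, wC okC th F i a ≤ Fintype.card α * th + F.card + 1 := by
  have h1 : ∀ a : α, wC okC th F i a ≤ th + (if ¬ okC a then 1 else 0)
      + (if colHit F i a then 1 else 0) := by
    intro a
    unfold wC
    by_cases a1 : okC a <;> by_cases a2 : colHit F i a <;> simp [a1, a2, h0]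
    linarith
  refine (Finset.sum_le_sum fun a _ => h1 a).trans ?_
  rw [Finset.sum_add_distrib, Finset.sum_add_distrib, Finset.sum_const, Finset.card_univ,
    nsmul_eq_mul, Finset.sum_boole, Finset.sum_boole]
  have h2 : ((univ.filter fun a : α => ¬ okC a).card : ℝ) ≤ 1 := by exact_mod_cast hC
  have h3 : ((univ.filter fun a : α => colHit F i a).card : ℝ) ≤ F.card := by
    have h4 : (univ.filter fun a : α => colHit F i a) ⊆ F.image fun z => z.2.2 := by
      intro a ha
      obtain ⟨z, hz, _, h5⟩ := (mem_filter.1 ha).2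
      exact mem_image.2 ⟨z, hz, h5⟩
    exact_mod_cast (card_le_card h4).trans card_image_le
  linarith

omit [Fintype I] [Fintype α] in
lemma wR_nonneg {th : ℝ} (h0 : 0 ≤ th) (F : Finset (I × α × α)) (i : I) (a : α) :
    0 ≤ wR okR th F i a := by
  unfold wR; split_ifs <;> linarith

omit [Fintype I] [Fintype α] in
lemma wC_nonneg {th : ℝ} (h0 : 0 ≤ th) (F : Finset (I × α × α)) (i : I) (a : α) :
    0 ≤ wC okC th F i a := by
  unfold wC; split_ifs <;> linarith

/-- all cells together -/
lemma sum_add_le (hr : ∀ x, (r x).1 = x.1 ∧ (r x).2.1 = x.2.1)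
    (hc : ∀ x, (c x).1 = x.1 ∧ (c x).2.2 = x.2.2)
    (hrc : ∀ x, okR x.2.1 → okC x.2.2 → r x ≠ c x)
    (hR : (univ.filter fun a : α => ¬ okR a).card ≤ 1)
    (hC : (univ.filter fun a : α => ¬ okC a).card ≤ 1) {th : ℝ} (h0 : 0 ≤ th) (h1 : th ≤ 1)
    {D : ℕ} {e : I × α × α → ℕ} (he : e ∈ piAntidiag univ D) :
    ∑ x : I × α × α, th ^ (Forb okR okC r c (e + Pi.single x 1)).card
      ≤ th ^ (Forb okR okC r c e).card *
        (Fintype.card I * (Fintype.card α * th + 2 * D + 1) ^ 2) := by
  set F := Forb okR okC r c e with hF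
  have hFc : (F.card : ℝ) ≤ 2 * D := by exact_mod_cast card_Forb_le he
  set B : ℝ := Fintype.card α * th + 2 * D + 1 with hB
  have hB0 : 0 ≤ B := by positivity
  calc ∑ x : I × α × α, th ^ (Forb okR okC r c (e + Pi.single x 1)).card
      ≤ ∑ x : I × α × α, th ^ F.card * (wR okR th F x.1 x.2.1 * wC okC th F x.1 x.2.2) := by
        refine Finset.sum_le_sum fun x _ => ?_
        rw [Forb_add]
        exact card_add hr hc hrc h0 h1 F x
    _ = th ^ F.card * ∑ i : I, (∑ a : α, wR okR th F i a) * ∑ b : α, wC okC th F i b := by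
        rw [← Finset.mul_sum, Fintype.sum_prod_type]
        congr 1
        refine Finset.sum_congr rfl fun i _ => ?_
        rw [Finset.sum_mul_sum, Fintype.sum_prod_type]
    _ ≤ th ^ F.card * ∑ i : I, B ^ 2 := by
        refine mul_le_mul_of_nonneg_left ?_ (pow_nonneg h0 _)
        refine Finset.sum_le_sum fun i _ => ?_
        rw [pow_two]
        refine mul_le_mul ((sum_wR_le hR h0 F i).trans (by linarith))
          ((sum_wC_le hC h0 F i).trans (by linarith))
          (Finset.sum_nonneg fun a _ => wC_nonneg h0 F i a) hB0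
    _ = _ := by rw [Finset.sum_const, Finset.card_univ, nsmul_eq_mul]

/-- one step -/
lemma step (hr : ∀ x, (r x).1 = x.1 ∧ (r x).2.1 = x.2.1)
    (hc : ∀ x, (c x).1 = x.1 ∧ (c x).2.2 = x.2.2)
    (hrc : ∀ x, okR x.2.1 → okC x.2.2 → r x ≠ c x)
    (hR : (univ.filter fun a : α => ¬ okR a).card ≤ 1)
    (hC : (univ.filter fun a : α => ¬ okC a).card ≤ 1) {th : ℝ} (h0 : 0 ≤ th) (h1 : th ≤ 1)
    (D : ℕ) :
    ((D : ℝ) + 1) * ∑ e ∈ piAntidiag (univ : Finset (I × α × α)) (D + 1),
        th ^ (Forb okR okC r c e).card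
      ≤ (D + Fintype.card I * (Fintype.card α * th + 2 * D + 1) ^ 2) *
        ∑ e ∈ piAntidiag (univ : Finset (I × α × α)) D, th ^ (Forb okR okC r c e).card := by
  rw [marked, Finset.mul_sum]
  refine Finset.sum_le_sum fun e he => ?_
  have h2 : ∑ x : I × α × α, ((e x : ℝ) + 1) * th ^ (Forb okR okC r c (e + Pi.single x 1)).card
      ≤ ∑ x : I × α × α, ((e x : ℝ) * th ^ (Forb okR okC r c e).card
        + th ^ (Forb okR okC r c (e + Pi.single x 1)).card) := by
    refine Finset.sum_le_sum fun x _ => ?_
    have h3 : th ^ (Forb okR okC r c (e + Pi.single x 1)).card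
        ≤ th ^ (Forb okR okC r c e).card := by
      rw [Forb_add]
      exact pow_le_pow_of_le_one h0 h1 (card_le_card subset_union_left)
    have h4 : (0 : ℝ) ≤ e x := Nat.cast_nonneg _
    have h5 := mul_le_mul_of_nonneg_left h3 h4
    linarith
  refine h2.trans ?_
  rw [Finset.sum_add_distrib, ← Finset.sum_mul]
  have h6 : ∑ x : I × α × α, (e x : ℝ) = D := by
    have h7 : ∑ x : I × α × α, e x = D := (mem_piAntidiag.1 he).1
    exact_mod_cast h7
  have h8 := sum_add_le hr hc hrc hR hC h0 h1 he
  rw [h6]
  linarith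

/-- **the count** -/
theorem count_le (hr : ∀ x, (r x).1 = x.1 ∧ (r x).2.1 = x.2.1)
    (hc : ∀ x, (c x).1 = x.1 ∧ (c x).2.2 = x.2.2)
    (hrc : ∀ x, okR x.2.1 → okC x.2.2 → r x ≠ c x)
    (hR : (univ.filter fun a : α => ¬ okR a).card ≤ 1)
    (hC : (univ.filter fun a : α => ¬ okC a).card ≤ 1) {th : ℝ} (h0 : 0 ≤ th) (h1 : th ≤ 1)
    (D : ℕ) :
    ∑ e ∈ piAntidiag (univ : Finset (I × α × α)) D, th ^ (Forb okR okC r c e).card
      ≤ (2 * (Fintype.card I * (Fintype.card α * th + 2 * D + 1) ^ 2)) ^ D / (D.factorial : ℝ) := by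
  rcases isEmpty_or_nonempty I with hI | hI
  · rcases Nat.eq_zero_or_pos D with rfl | hD
    · have h2 : ∑ e ∈ piAntidiag (univ : Finset (I × α × α)) 0, th ^ (Forb okR okC r c e).card
          ≤ 1 := by
        rw [piAntidiag_zero, Finset.sum_singleton]
        exact pow_le_one₀ h0 h1
      simpa using h2
    · have h2 : ∑ e ∈ piAntidiag (univ : Finset (I × α × α)) D, th ^ (Forb okR okC r c e).card
          = 0 := by
        refine Finset.sum_eq_zero fun e he => ?_
        exfalso
        have h7 : ∑ x : I × α × α, e x = D := (mem_piAntidiag.1 he).1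
        have h8 : ∑ x : I × α × α, e x = 0 := by
          refine Finset.sum_eq_zero fun x _ => (IsEmpty.false x.1).elim
        omega
      rw [h2]
      positivity
  · have hI1 : (1 : ℝ) ≤ Fintype.card I := by exact_mod_cast Fintype.card_pos
    set B : ℝ := Fintype.card I * (Fintype.card α * th + 2 * D + 1) ^ 2 with hB
    have hB0 : 0 ≤ B := by positivity
    have key : ∀ d : ℕ, d ≤ D →
        ∑ e ∈ piAntidiag (univ : Finset (I × α × α)) d, th ^ (Forb okR okC r c e).card
          ≤ (2 * B) ^ d / (d.factorial : ℝ) := by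
      intro d
      induction d with
      | zero =>
        intro _
        rw [piAntidiag_zero, Finset.sum_singleton]
        have := pow_le_one₀ (n := (Forb okR okC r c 0).card) h0 h1
        simpa using this
      | succ d ih =>
        intro hd
        have h2 := ih (by omega)
        have h3 := step (I := I) (α := α) hr hc hrc hR hC h0 h1 d
        have hdD : (d : ℝ) ≤ D := by exact_mod_cast (by omega : d ≤ D)
        have h4 : (d : ℝ) + Fintype.card I * (Fintype.card α * th + 2 * d + 1) ^ 2 ≤ 2 * B := by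
          have h5 : (Fintype.card α * th + 2 * d + 1) ^ 2 ≤ (Fintype.card α * th + 2 * D + 1) ^ 2 :=
            pow_le_pow_left₀ (by positivity) (by linarith) 2
          have h6 : (Fintype.card I : ℝ) * (Fintype.card α * th + 2 * d + 1) ^ 2 ≤ B :=
            mul_le_mul_of_nonneg_left h5 (by positivity)
          have h7 : (d : ℝ) ≤ B := by
            have h8 : (D : ℝ) ≤ (Fintype.card α * th + 2 * D + 1) ^ 2 := by
              have h9 : (0 : ℝ) ≤ Fintype.card α * th := by positivity
              have h10 : (0 : ℝ) ≤ D := Nat.cast_nonneg _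
              nlinarith
            have h9 : (Fintype.card α * th + 2 * D + 1) ^ 2 ≤ B := by
              rw [hB]
              have h10 : (0 : ℝ) ≤ (Fintype.card α * th + 2 * D + 1) ^ 2 := sq_nonneg _
              nlinarith
            linarith
          linarith
        have hZ : 0 ≤ ∑ e ∈ piAntidiag (univ : Finset (I × α × α)) d,
            th ^ (Forb okR okC r c e).card := Finset.sum_nonneg fun e _ => pow_nonneg h0 _
        have h5 := h3.trans (mul_le_mul h4 h2 hZ (by positivity))
        have hd1 : (0 : ℝ) < (d : ℝ) + 1 := by positivity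
        rw [Nat.factorial_succ, pow_succ]
        push_cast
        rw [le_div_iff₀ (by positivity)]
        have hf : (0 : ℝ) < (d.factorial : ℝ) := by exact_mod_cast Nat.factorial_pos d
        have h6 : 2 * B * ((2 * B) ^ d / (d.factorial : ℝ)) * (d.factorial : ℝ)
            = (2 * B) ^ d * (2 * B) := by
          field_simp
        rw [← h6]
        have h7 := mul_le_mul_of_nonneg_right h5 hf.le
        linarith
    exact key D le_rfl

/-- number of cells in each matrix -/
def ty (e : I × α × α → ℕ) (i : I) : ℕ := ∑ p : α × α, e (i, p)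

omit [DecidableEq I] [DecidableEq α] in
lemma sum_ty (e : I × α × α → ℕ) : ∑ i : I, ty e i = ∑ x : I × α × α, e x := by
  unfold ty
  rw [Fintype.sum_prod_type]

/-- **the count with the number of the types below** -/
theorem count_types (hr : ∀ x, (r x).1 = x.1 ∧ (r x).2.1 = x.2.1)
    (hc : ∀ x, (c x).1 = x.1 ∧ (c x).2.2 = x.2.2)
    (hrc : ∀ x, okR x.2.1 → okC x.2.2 → r x ≠ c x)
    (hR : (univ.filter fun a : α => ¬ okR a).card ≤ 1)
    (hC : (univ.filter fun a : α => ¬ okC a).card ≤ 1) {th : ℝ} (h0 : 0 ≤ th) (h1 : th ≤ 1)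
    (D : ℕ) (G : Finset (I → ℕ)) :
    ∑ g ∈ G, ∑ e ∈ piAntidiag (univ : Finset (I × α × α)) D with ∀ i, g i ≤ ty e i,
        th ^ (Forb okR okC r c e).card
      ≤ 2 ^ D * ((2 * (Fintype.card I * (Fintype.card α * th + 2 * D + 1) ^ 2)) ^ D
        / (D.factorial : ℝ)) := by
  have h2 : ∑ g ∈ G, ∑ e ∈ piAntidiag (univ : Finset (I × α × α)) D with ∀ i, g i ≤ ty e i,
        th ^ (Forb okR okC r c e).card
      = ∑ e ∈ piAntidiag (univ : Finset (I × α × α)) D,
        ((G.filter fun g => ∀ i, g i ≤ ty e i).card : ℝ) * th ^ (Forb okR okC r c e).card := by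
    simp only [Finset.sum_filter]
    rw [Finset.sum_comm]
    refine Finset.sum_congr rfl fun e _ => ?_
    rw [← Finset.sum_filter, Finset.sum_const, nsmul_eq_mul]
  rw [h2]
  calc ∑ e ∈ piAntidiag (univ : Finset (I × α × α)) D,
        ((G.filter fun g => ∀ i, g i ≤ ty e i).card : ℝ) * th ^ (Forb okR okC r c e).card
      ≤ ∑ e ∈ piAntidiag (univ : Finset (I × α × α)) D,
        (2 : ℝ) ^ D * th ^ (Forb okR okC r c e).card := by
        refine Finset.sum_le_sum fun e he => ?_
        refine mul_le_mul_of_nonneg_right ?_ (pow_nonneg h0 _)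
        have h3 : (G.filter fun g => ∀ i, g i ≤ ty e i)
            ⊆ Fintype.piFinset fun i => range (ty e i + 1) := by
          intro g hg
          rw [Fintype.mem_piFinset]
          intro i
          rw [mem_range]
          have := (mem_filter.1 hg).2 i
          omega
        have h4 := card_le_card h3
        rw [Fintype.card_piFinset] at h4
        simp only [card_range] at h4
        have h5 : ∏ i : I, (ty e i + 1) ≤ ∏ i : I, 2 ^ ty e i :=
          Finset.prod_le_prod' fun i _ => Nat.lt_two_pow_self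
        rw [Finset.prod_pow_eq_pow_sum, sum_ty] at h5
        have h6 : ∑ x : I × α × α, e x = D := (mem_piAntidiag.1 he).1
        rw [h6] at h5
        exact_mod_cast h4.trans h5
    _ = 2 ^ D * ∑ e ∈ piAntidiag (univ : Finset (I × α × α)) D,
        th ^ (Forb okR okC r c e).card := by rw [Finset.mul_sum]
    _ ≤ _ := mul_le_mul_of_nonneg_left (count_le hr hc hrc hR hC h0 h1 D) (by positivity)

end Pool.FD
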