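import Pool.Agent.Helper69.FD.Count

/-!
# Functions of determinants: the count with prescribed types (row F4', first part)
-/

set_option autoImplicit false

open Finset

namespace Pool.FD

variable {I α : Type*} [Fintype I] [Fintype α] [DecidableEq I] [DecidableEq α]
variable {okR okC : α → Prop} [DecidablePred okR] [DecidablePred okC]
  {r c : I × α × α → I × α × α}

/-- one matrix -/
def one (r : I × α × α → I × α × α) (i : I) (x : Unit × α × α) : Unit × α × α :=
  ((), (r (i, x.2)).2)

/-- the part of the forbidden set in the matrix `i` -/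
lemma filter_Forb (hr : ∀ x, (r x).1 = x.1) (hc : ∀ x, (c x).1 = x.1) (e : I × α × α → ℕ) (i : I) :
    (Forb okR okC r c e).filter (fun z => z.1 = i)
      = (Forb okR okC (one r i) (one c i) (fun x => e (i, x.2))).image (fun z => (i, z.2)) := by
  ext z
  simp only [mem_filter, mem_image, Forb, mem_biUnion, mem_univ, true_and, Fx, mem_union]
  constructor
  · rintro ⟨⟨x, hx, h⟩, hz⟩
    rcases h with h | h
    · split_ifs at h with h1
      · rw [mem_singleton] at h
        have hxi : x.1 = i := by rw [← hz, h, hr]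
        refine ⟨one r i ((), x.2), ⟨((), x.2), ?_, Or.inl ?_⟩, ?_⟩
        · rw [← hxi]; exact hx
        · rw [if_pos h1, mem_singleton]
        · change (i, (r (i, x.2)).2) = z
          rw [← hxi, h]
          exact Prod.ext (hr x).symm rfl
      · exact absurd h (notMem_empty _)
    · split_ifs at h with h1
      · rw [mem_singleton] at h
        have hxi : x.1 = i := by rw [← hz, h, hc]
        refine ⟨one c i ((), x.2), ⟨((), x.2), ?_, Or.inr ?_⟩, ?_⟩
        · rw [← hxi]; exact hx
        · rw [if_pos h1, mem_singleton]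
        · change (i, (c (i, x.2)).2) = z
          rw [← hxi, h]
          exact Prod.ext (hc x).symm rfl
      · exact absurd h (notMem_empty _)
  · rintro ⟨w, ⟨x, hx, h⟩, rfl⟩
    rcases h with h | h
    · split_ifs at h with h1
      · rw [mem_singleton] at h
        subst h
        refine ⟨⟨(i, x.2), hx, Or.inl ?_⟩, rfl⟩
        rw [if_pos h1, mem_singleton]
        change (i, (r (i, x.2)).2) = r (i, x.2)
        have := hr (i, x.2)
        exact Prod.ext this.symm rfl
      · exact absurd h (notMem_empty _)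
    · split_ifs at h with h1
      · rw [mem_singleton] at h
        subst h
        refine ⟨⟨(i, x.2), hx, Or.inr ?_⟩, rfl⟩
        rw [if_pos h1, mem_singleton]
        change (i, (c (i, x.2)).2) = c (i, x.2)
        have := hc (i, x.2)
        exact Prod.ext this.symm rfl
      · exact absurd h (notMem_empty _)

lemma card_Forb_eq (hr : ∀ x, (r x).1 = x.1) (hc : ∀ x, (c x).1 = x.1) (e : I × α × α → ℕ) :
    (Forb okR okC r c e).card
      = ∑ i : I, (Forb okR okC (one r i) (one c i) (fun x => e (i, x.2))).card := by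
  rw [Finset.card_eq_sum_card_fiberwise (f := fun z : I × α × α => z.1) (t := univ)
    (fun _ _ => mem_coe.2 (mem_univ _))]
  refine Finset.sum_congr rfl fun i _ => ?_
  rw [filter_Forb hr hc, Finset.card_image_of_injective]
  intro a b h
  have h2 : a.2 = b.2 := congrArg (fun z : I × α × α => z.2) h
  exact Prod.ext rfl h2

/-- the multisets of cells with the prescribed number of cells in each matrix -/
def tySet (τ : I → ℕ) : Finset (I × α × α → ℕ) :=
  (piAntidiag univ (∑ i, τ i)).filter fun e => ∀ i, ty e i = τ i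

omit [DecidableEq I] [DecidableEq α] in
lemma sum_eq_of_ty {e : I × α × α → ℕ} {τ : I → ℕ} (h : ∀ i, ty e i = τ i) :
    ∑ x, e x = ∑ i, τ i := by
  rw [← sum_ty]
  exact Finset.sum_congr rfl fun i _ => h i

lemma mem_tySet {e : I × α × α → ℕ} {τ : I → ℕ} : e ∈ tySet τ ↔ ∀ i, ty e i = τ i := by
  unfold tySet
  rw [mem_filter, mem_piAntidiag]
  exact ⟨fun h => h.2, fun h => ⟨⟨sum_eq_of_ty h, fun _ _ => mem_univ _⟩, h⟩⟩

/-- **the count with prescribed types** -/
theorem typ_count (hr : ∀ x, (r x).1 = x.1 ∧ (r x).2.1 = x.2.1)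
    (hc : ∀ x, (c x).1 = x.1 ∧ (c x).2.2 = x.2.2)
    (hrc : ∀ x, okR x.2.1 → okC x.2.2 → r x ≠ c x)
    (hR : (univ.filter fun a : α => ¬ okR a).card ≤ 1)
    (hC : (univ.filter fun a : α => ¬ okC a).card ≤ 1) {th : ℝ} (h0 : 0 ≤ th) (h1 : th ≤ 1)
    (τ : I → ℕ) :
    ∑ e ∈ tySet (α := α) τ, th ^ (Forb okR okC r c e).card
      ≤ ∏ i, ((2 * (Fintype.card α * th + 2 * τ i + 1) ^ 2) ^ τ i / ((τ i).factorial : ℝ)) := by
  have e1 : ∑ e ∈ tySet (α := α) τ, th ^ (Forb okR okC r c e).card
      = ∑ g ∈ Fintype.piFinset (fun i => piAntidiag (univ : Finset (Unit × α × α)) (τ i)),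
        ∏ i, th ^ (Forb okR okC (one r i) (one c i) (g i)).card := by
    refine Finset.sum_nbij' (fun e i x => e (i, x.2)) (fun g x => g x.1 ((), x.2)) ?_ ?_ ?_ ?_ ?_
    · intro e he
      rw [mem_tySet] at he
      rw [Fintype.mem_piFinset]
      intro i
      rw [mem_piAntidiag]
      refine ⟨?_, fun _ _ => mem_univ _⟩
      rw [← he i]
      unfold ty
      rw [Fintype.sum_prod_type]
      simp
    · intro g hg
      rw [Fintype.mem_piFinset] at hg
      rw [mem_tySet]
      intro i
      have h2 := (mem_piAntidiag.1 (hg i)).1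
      rw [← h2]
      unfold ty
      have h3 : ∑ x : Unit × α × α, g i x = ∑ p : α × α, g i ((), p) := by
        rw [Fintype.sum_prod_type]
        simp
      exact h3.symm
    · intro e _
      rfl
    · intro g _
      rfl
    · intro e _
      rw [card_Forb_eq (fun x => (hr x).1) (fun x => (hc x).1), Finset.prod_pow_eq_pow_sum]
  have e2 := Finset.prod_univ_sum (fun i => piAntidiag (univ : Finset (Unit × α × α)) (τ i))
    (fun i (g : Unit × α × α → ℕ) => th ^ (Forb okR okC (one r i) (one c i) g).card)
  rw [e1, ← e2]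
  refine Finset.prod_le_prod (fun i _ => Finset.sum_nonneg fun _ _ => pow_nonneg h0 _)
    fun i _ => ?_
  have h2 := count_le (I := Unit) (α := α) (okR := okR) (okC := okC) (r := one r i) (c := one c i)
    (fun x => ⟨rfl, (hr (i, x.2)).2⟩) (fun x => ⟨rfl, (hc (i, x.2)).2⟩) (by
      intro x hx hx' h
      refine hrc (i, x.2) hx hx' ?_
      have h3 : (r (i, x.2)).2 = (c (i, x.2)).2 := congrArg (fun z : Unit × α × α => z.2) h
      exact Prod.ext ((hr (i, x.2)).1.trans (hc (i, x.2)).1.symm) h3) hR hC h0 h1 (τ i)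
  rw [Fintype.card_unit, Nat.cast_one, one_mul] at h2
  exact h2

end Pool.FD
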