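import Mathlib

/-!
# Specialisation of linear independence (row F1, first part)
-/

set_option autoImplicit false

open MvPolynomial Finset

namespace Pool.FD

variable {R K L : Type*} [CommRing R] [Field K] [Field L] {Y κ : Type*}

/-- polynomials over `R` whose specialisations are linearly independent are independent over any
field containing `R` -/
theorem li_of_map (ev : R →+* K) (hev : Function.Surjective ev) (io : R →+* L)
    (hio : Function.Injective io) [Finite κ] (v : κ → MvPolynomial Y R)
    (hv : LinearIndependent K fun i => MvPolynomial.map ev (v i)) :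
    LinearIndependent L fun i => MvPolynomial.map io (v i) := by
  classical
  have := Fintype.ofFinite κ
  set S : Finset (Y →₀ ℕ) := Finset.univ.biUnion fun i => (v i).support with hS
  let π : MvPolynomial Y K →ₗ[K] (S → K) := LinearMap.pi fun u => lcoeff K u.1
  have hπ : ∀ f u, π f u = coeff u.1 f := fun f u => rfl
  let f : (κ → K) →ₗ[K] (S → K) :=
    π ∘ₗ Fintype.linearCombination K (fun i => MvPolynomial.map ev (v i))
  have hf : LinearMap.ker f = ⊥ := by
    rw [LinearMap.ker_eq_bot']
    intro c hc
    have h0 : Fintype.linearCombination K (fun i => MvPolynomial.map ev (v i)) c = 0 := by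
      ext u
      by_cases hu : u ∈ S
      · exact congrFun hc ⟨u, hu⟩
      · rw [Fintype.linearCombination_apply, coeff_sum, coeff_zero]
        refine Finset.sum_eq_zero fun i _ => ?_
        rw [coeff_smul, coeff_map]
        have : coeff u (v i) = 0 := by
          rw [← notMem_support_iff]
          intro hi
          exact hu (Finset.mem_biUnion.mpr ⟨i, Finset.mem_univ _, hi⟩)
        rw [this, map_zero, smul_zero]
    exact hv.fintypeLinearCombination_injective (by rw [h0, map_zero])
  obtain ⟨g, hg⟩ := LinearMap.exists_leftInverse_of_injective f hf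
  choose lift hlift using hev
  let G : S → κ → R := fun u i' => lift (g (Pi.single u 1) i')
  have hG : ∀ u i', ev (G u i') = g (Pi.single u 1) i' := fun u i' => hlift _
  have hgexp : ∀ (x : S → K) (i' : κ), g x i' = ∑ u, x u * g (Pi.single u 1) i' := by
    intro x i'
    conv_lhs => rw [← Finset.univ_sum_single x]
    rw [map_sum, Finset.sum_apply]
    refine Finset.sum_congr rfl fun u _ => ?_
    have : (Pi.single u (x u) : S → K) = x u • Pi.single u 1 := by
      rw [← Pi.single_smul, smul_eq_mul, mul_one]
    rw [this, map_smul, Pi.smul_apply, smul_eq_mul]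
  -- the matrix over `R`
  let Mx : Matrix κ κ R := Matrix.of fun i i' => ∑ u : S, coeff u.1 (v i) * G u i'
  have hMK : ev.mapMatrix Mx = 1 := by
    ext i i'
    rw [RingHom.mapMatrix_apply, Matrix.map_apply]
    change ev (∑ u : S, coeff u.1 (v i) * G u i') = _
    rw [map_sum]
    have h1 : ∑ u : S, ev (coeff u.1 (v i) * G u i')
        = ∑ u : S, π (MvPolynomial.map ev (v i)) u * g (Pi.single u 1) i' := by
      refine Finset.sum_congr rfl fun u _ => ?_
      rw [map_mul, hG, hπ, coeff_map]
    rw [h1, ← hgexp]
    have h3 : f (Pi.single i 1) = π (MvPolynomial.map ev (v i)) := by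
      change π (Fintype.linearCombination K (fun i => MvPolynomial.map ev (v i))
        (Pi.single i 1)) = _
      rw [Fintype.linearCombination_apply_single, one_smul]
    rw [← h3]
    have h4 : g (f (Pi.single i 1)) = Pi.single i 1 := LinearMap.congr_fun hg _
    rw [h4, Matrix.one_apply, Pi.single_apply]
    simp only [eq_comm]
  have hdetK : ev Mx.det = 1 := by
    rw [RingHom.map_det, hMK, Matrix.det_one]
  have hdet : io Mx.det ≠ 0 := by
    intro h
    have h1 : Mx.det = 0 := hio (by rw [h, map_zero])
    rw [h1, map_zero] at hdetK
    exact zero_ne_one hdetK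
  rw [Fintype.linearIndependent_iff]
  intro c hc
  have h1 : Matrix.vecMul c (io.mapMatrix Mx) = 0 := by
    funext i'
    rw [Matrix.vecMul, dotProduct]
    have h2 : ∑ i, c i * (io.mapMatrix Mx) i i'
        = ∑ u : S, coeff u.1 (∑ i, c i • MvPolynomial.map io (v i)) * io (G u i') := by
      have h3 : ∀ i, c i * (io.mapMatrix Mx) i i'
          = ∑ u : S, c i * io (coeff u.1 (v i)) * io (G u i') := by
        intro i
        rw [RingHom.mapMatrix_apply, Matrix.map_apply]
        change c i * io (∑ u : S, coeff u.1 (v i) * G u i') = _
        rw [map_sum, Finset.mul_sum]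
        refine Finset.sum_congr rfl fun u _ => ?_
        rw [map_mul, mul_assoc]
      rw [Finset.sum_congr rfl fun i _ => h3 i, Finset.sum_comm]
      refine Finset.sum_congr rfl fun u _ => ?_
      rw [coeff_sum, Finset.sum_mul]
      refine Finset.sum_congr rfl fun i _ => ?_
      rw [coeff_smul, coeff_map, smul_eq_mul]
    rw [h2, hc]
    simp
  have h5 : (io.mapMatrix Mx).det ≠ 0 := by rwa [← RingHom.map_det]
  have h6 := Matrix.eq_zero_of_vecMul_eq_zero h5 h1
  exact fun i => congrFun h6 i

/-- the dimension of the span drops under specialisation -/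
theorem finrank_span_map_le (ev : R →+* K) (hev : Function.Surjective ev) (io : R →+* L)
    (hio : Function.Injective io) [Finite κ] (v : κ → MvPolynomial Y R) :
    Module.finrank K (Submodule.span K (Set.range fun i => MvPolynomial.map ev (v i)))
      ≤ Module.finrank L (Submodule.span L (Set.range fun i => MvPolynomial.map io (v i))) := by
  classical
  obtain ⟨b, hb, hspan, hli⟩ :=
    exists_linearIndependent K (Set.range fun i => MvPolynomial.map ev (v i))
  -- choose representatives
  have hfin : (Set.range fun i => MvPolynomial.map ev (v i)).Finite := Set.finite_range _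
  have hbfin : b.Finite := hfin.subset hb
  have := hbfin.to_subtype
  choose s hs using fun x : b => hb x.2
  have h1 : LinearIndependent K fun x : b => MvPolynomial.map ev (v (s x)) := by
    have h2 : (fun x : b => MvPolynomial.map ev (v (s x))) = fun x : b => (x : MvPolynomial Y K) :=
      funext fun x => hs x
    rw [h2]
    exact hli
  have h2 := li_of_map ev hev io hio (fun x : b => v (s x)) h1
  have hfb : Fintype b := Fintype.ofFinite b
  have h3 : Module.finrank K (Submodule.span K (Set.range fun i => MvPolynomial.map ev (v i)))
      = Fintype.card b := by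
    rw [← hspan]
    have h4 := finrank_span_eq_card h1
    have h5 : (Set.range fun x : b => MvPolynomial.map ev (v (s x))) = b := by
      have h6 : (fun x : b => MvPolynomial.map ev (v (s x))) = fun x : b => (x : MvPolynomial Y K) :=
        funext fun x => hs x
      rw [h6, Subtype.range_coe]
    rw [h5] at h4
    exact h4
  rw [h3, ← finrank_span_eq_card h2]
  have hfl : Module.Finite L
      (Submodule.span L (Set.range fun i => MvPolynomial.map io (v i))) :=
    FiniteDimensional.span_of_finite L (Set.finite_range _)
  refine Submodule.finrank_mono (Submodule.span_mono ?_)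
  rintro _ ⟨x, rfl⟩
  exact ⟨s x, rfl⟩

end Pool.FD
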